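import Mathlib
import Pool.Agent.H665R2.PathFinal
import Pool.Agent.Helper292.ForceCH

/-!
# CH implies that `ω₁^(ω+2)` carries a graph with no infinite path and no independent set of full
order type
-/

set_option autoImplicit false

namespace Pool.Agent.Results.MP_46bbfb_lc.CHFailure

open Cardinal Ordinal

/-- Every graph on the ordinal `α` (realised as the well-ordered type `α.ToType` of order type
`α`) has an infinite path (an injective sequence of vertices, consecutive ones adjacent) or an
independent set of order type `τ`. -/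
def PathOrIndep (α τ : Ordinal.{0}) : Prop :=
  ∀ G : SimpleGraph α.ToType,
    (∃ v : ℕ → α.ToType, Function.Injective v ∧ ∀ n, G.Adj (v n) (v (n + 1))) ∨
    ∃ S : Set α.ToType, G.IsIndepSet S ∧ typeLT S = τ

/-- No hypothesis is assumed. (1) There is a notion of forcing all of whose conditions force that
`ω₁` is preserved and that the continuum hypothesis holds. (2) The continuum hypothesis implies
that `ω₁^(ω+2)` carries a graph without infinite path and without independent set of order type
`ω₁^(ω+2)`. -/
theorem result :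
    (∃ (P : Type) (_ : Preorder P), Nonempty P ∧ ∀ p : P,
      p ∈ Pool.Agent.Helper292.ForceCH.OmegaOnePreserved P ∧
      p ∈ Pool.Agent.Helper292.ForceCH.CHHolds P) ∧
    (Cardinal.continuum.{0} = Cardinal.aleph 1 →
      ¬ PathOrIndep (ω_ 1 ^ (ω + 2)) (ω_ 1 ^ (ω + 2))) := by
  refine ⟨?_, ?_⟩
  · obtain ⟨P, hP, hne, h⟩ := Pool.Agent.Helper292.ForceCH.exists_forcing
    exact ⟨P, hP, hne, fun p => ⟨(h p).1, (h p).2.2⟩⟩
  · intro hCH
    have h1 : (ω_ 1 ^ (ω + 2) : Ordinal.{0}).card ≤ ℵ₁ := by
      refine (Ordinal.card_opow_le _ _).trans ?_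
      rw [Ordinal.card_omega]
      refine max_le (Cardinal.aleph0_le_aleph 1) (max_le le_rfl ?_)
      have h4 : (ω + 2 : Ordinal.{0}).card = ℵ₀ := by
        rw [Ordinal.card_add, Ordinal.card_omega0]
        simp
      rw [h4]
      exact Cardinal.aleph0_le_aleph 1
    have h3 := H665R2.PathFinal.ch_not_pathRel hCH _ h1
    rw [Cardinal.ord_aleph] at h3
    exact h3

end Pool.Agent.Results.MP_46bbfb_lc.CHFailure
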